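import Mathlib
import Pool.Agent.Q110.S3T.Mob
import Pool.Agent.Q110.S3T.Laurent

/-!
# A sharply 3-transitive group of homeomorphisms of a compact space without compatible topology

Let `K = 𝔽₄((t))`, let `σ` be the Frobenius on coefficients and `χ` a character of `Kˣ` of order two
with `χ ∘ σ = χ` that is not continuous: `χ u = ψ (u / σ u)`, where `ψ` is a character of order two
with value `-1` on `a_n / σ a_n`, `a_n = 1 + w t ^ (2 n + 1)`, `w ∈ 𝔽₄` a primitive third root of
unity. Such a `ψ` exists because a product of finitely many distinct `a_n / σ a_n` is not a square.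
The group consists of the maps `x ↦ (a x + b) / (c x + d)` with `χ (a d - b c) = 1` and
`x ↦ (a σ x + b) / (c σ x + d)` with `χ (a d - b c) = -1` of the projective line `K ∪ {∞}`.
For `u ∈ Kˣ` the element with `∞, 0, 1 ↦ ∞, 0, u` maps `w` to `u w` or to `u σ w`, according to the
sign of `χ u`, which is not continuous in `u`.
-/

set_option autoImplicit false

open Filter Topology OnePoint

namespace Pool.Agent.Results.MP_3e0647_al.DiscontinuousTwist

/-- The triples of pairwise distinct points, with the subspace topology. -/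
abbrev Triples (M : Type) : Type :=
  {t : M × M × M // t.1 ≠ t.2.1 ∧ t.1 ≠ t.2.2 ∧ t.2.1 ≠ t.2.2}

/-- The action on triples. -/
def act {G M : Type} [Group G] [MulAction G M] (g : G) (t : Triples M) : Triples M :=
  ⟨(g • t.1.1, g • t.1.2.1, g • t.1.2.2), by simpa using t.2⟩

/-- Any triple is moved to any other one by exactly one group element. -/
def SharplyThreeTransitive (G M : Type) [Group G] [MulAction G M] : Prop :=
  ∀ s t : Triples M, ∃! g : G, act g s = t

/-- There are a compact Hausdorff space `M` and a group `G` acting on `M` by homeomorphisms and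
sharply 3-transitively, such that for no topology on `G` all orbit maps `g ↦ g t` from `G` to the
space of triples are homeomorphisms. -/
theorem result :
    ∃ (M : Type) (_ : TopologicalSpace M) (G : Type) (_ : Group G) (_ : MulAction G M),
      CompactSpace M ∧ T2Space M ∧ (∀ g : G, IsHomeomorph (fun x : M => g • x)) ∧
      SharplyThreeTransitive G M ∧
      ∀ _ : TopologicalSpace G, ¬ ∀ t : Triples M, IsHomeomorph (fun g : G => act g t) := by
  classical
  open Pool.Agent.Q110.S3T in
  obtain ⟨χ, hχ, u, hu, hu1⟩ := exists_chi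
  let Γ := G sg sg_sg χ hχ
  let t0 : Triples (OnePoint LK) := ⟨(∞, ((0 : LK) : OnePoint LK), ((1 : LK) : OnePoint LK)),
    OnePoint.infty_ne_coe _, OnePoint.infty_ne_coe _, fun h => zero_ne_one (OnePoint.coe_injective h)⟩
  refine ⟨OnePoint LK, inferInstance, Γ, inferInstance, inferInstance, inferInstance, inferInstance,
    fun g => ?_, ?_, ?_⟩
  · let e : OnePoint LK ≃ₜ OnePoint LK :=
      ⟨g.1, continuous_mem sg sg_sg sg_continuous χ hχ g.1 g.2,
        continuous_mem sg sg_sg sg_continuous χ hχ g.1⁻¹ (Γ.inv_mem g.2)⟩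
    exact e.isHomeomorph
  · -- sharp transitivity
    have h0 : ∀ t : Triples (OnePoint LK), ∃ g : Γ, act g t0 = t := by
      intro t
      obtain ⟨p, hp, h1, h2, h3⟩ := exists_triple sg sg_sg χ hχ t.1.1 t.1.2.1 t.1.2.2 t.2.1 t.2.2.1 t.2.2.2
      refine ⟨⟨p, hp⟩, Subtype.ext ?_⟩
      exact Prod.ext h1 (Prod.ext h2 h3)
    have hact : ∀ (g h : Γ) (t : Triples (OnePoint LK)), act (g * h) t = act g (act h t) := by
      intro g h t
      apply Subtype.ext
      simp only [act, mul_smul]
    have hone : ∀ t : Triples (OnePoint LK), act (1 : Γ) t = t := by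
      intro t
      apply Subtype.ext
      simp only [act, one_smul]
    have hfix : ∀ g : Γ, act g t0 = t0 → g = 1 := by
      intro g hg
      have h1 := congrArg (fun t : Triples (OnePoint LK) => t.1.1) hg
      have h2 := congrArg (fun t : Triples (OnePoint LK) => t.1.2.1) hg
      have h3 := congrArg (fun t : Triples (OnePoint LK) => t.1.2.2) hg
      exact Subtype.ext (eq_one_of_fix sg sg_sg χ hχ g.1 g.2 h1 h2 h3)
    intro s t
    obtain ⟨gs, hgs⟩ := h0 s
    obtain ⟨gt, hgt⟩ := h0 t
    refine ⟨gt * gs⁻¹, ?_, ?_⟩
    · show act (gt * gs⁻¹) s = t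
      rw [← hgs, hact, ← hact gs⁻¹ gs, inv_mul_cancel, hone, hgt]
    · intro g hg
      have hg' : act g s = t := hg
      have h1 : act (gt⁻¹ * (g * gs)) t0 = t0 := by
        rw [hact, hact, hgs, hg', ← hgt, ← hact, inv_mul_cancel, hone]
      have h2 := hfix _ h1
      rw [inv_mul_eq_one] at h2
      rw [h2, mul_inv_cancel_right]
  · -- no topology
    intro τ hτ
    let y : LK := mono 0 w
    have hy0 : y ≠ 0 := by
      intro h
      have h1 : sg y ≠ y := sg_w
      rw [h, map_zero] at h1
      exact h1 rfl
    let t1 : Triples (OnePoint LK) := ⟨(∞, ((0 : LK) : OnePoint LK), (y : OnePoint LK)),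
      OnePoint.infty_ne_coe _, OnePoint.infty_ne_coe _, fun h => hy0 (OnePoint.coe_injective h).symm⟩
    let tr : LKˣ → Triples (OnePoint LK) := fun v =>
      ⟨(∞, ((0 : LK) : OnePoint LK), ((v : LK) : OnePoint LK)),
        OnePoint.infty_ne_coe _, OnePoint.infty_ne_coe _,
        fun h => v.ne_zero (OnePoint.coe_injective h).symm⟩
    -- the homeomorphism for the standard triple, followed by the orbit map of `t1`
    let e : Γ ≃ₜ Triples (OnePoint LK) := (hτ t0).homeomorph
    have he : ∀ g, e g = act g t0 := fun g => rfl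
    let f : Triples (OnePoint LK) → OnePoint LK := fun t => (act (e.symm t) t1).1.2.2
    have hf : Continuous f := by
      have h1 : Continuous (fun t => act (e.symm t) t1) := (hτ t1).continuous.comp e.symm.continuous
      exact continuous_snd.comp (continuous_snd.comp (continuous_subtype_val.comp h1))
    have hval : ∀ v : LKˣ, f (tr v) = if χ v = 1 then ((v * y : LK) : OnePoint LK) else
        ((v * sg y : LK) : OnePoint LK) := by
      intro v
      obtain ⟨p, hp, h1, h2⟩ := exists_diag sg sg_sg χ hχ v
      have h3 : e ⟨p, hp⟩ = tr v := by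
        rw [he]
        apply Subtype.ext
        refine Prod.ext h1 (Prod.ext ?_ ?_)
        · show p ((0 : LK) : OnePoint LK) = ((0 : LK) : OnePoint LK)
          rw [h2, map_zero, mul_zero, ite_self]
        · show p ((1 : LK) : OnePoint LK) = ((v : LK) : OnePoint LK)
          rw [h2, map_one, mul_one, ite_self]
      have h4 : e.symm (tr v) = ⟨p, hp⟩ := by rw [← h3, Homeomorph.symm_apply_apply]
      show (act (e.symm (tr v)) t1).1.2.2 = _
      rw [h4]
      exact h2 y
    have htr : Tendsto (fun n => tr (u n)) atTop (𝓝 (tr 1)) := by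
      rw [tendsto_subtype_rng]
      refine tendsto_const_nhds.prodMk_nhds (tendsto_const_nhds.prodMk_nhds ?_)
      exact (OnePoint.continuous_coe.tendsto (1 : LK)).comp hu1
    have h1 : Tendsto (fun n => f (tr (u n))) atTop (𝓝 (f (tr 1))) := (hf.tendsto _).comp htr
    rw [hval 1, map_one, if_pos rfl, Units.val_one, one_mul] at h1
    have h2 : Tendsto (fun n => f (tr (u n))) atTop (𝓝 ((sg y : LK) : OnePoint LK)) := by
      have h3 : (fun n => f (tr (u n))) = fun n => (((u n : LKˣ) * sg y : LK) : OnePoint LK) := by
        funext n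
        rw [hval, hu, if_neg (by decide)]
      rw [h3]
      have h4 : Tendsto (fun n => ((u n : LKˣ) : LK) * sg y) atTop (𝓝 (1 * sg y)) :=
        hu1.mul_const _
      rw [one_mul] at h4
      exact (OnePoint.continuous_coe.tendsto (sg y)).comp h4
    have h5 := tendsto_nhds_unique h2 h1
    exact sg_w (OnePoint.coe_injective h5)

end Pool.Agent.Results.MP_3e0647_al.DiscontinuousTwist
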